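import Pool.Agent.U213.BP.Lin
import Pool.Agent.Y116.UV.Defs

/-!
# Motivic homology and cohomology with compact supports and their pairing, formally

`k` is a finite field. For a separated scheme `X` of finite type over `k` and `i n : ℤ` the theory gives
the pairing of `H_i^c(X, ℚ(n)) = Hom(ℤ(n)[i], M^c(X))_ℚ` and `H^i_c(X, ℚ(n)) = Hom(M^c(X), ℤ(n)[i])_ℚ`.
For a smooth projective `X` of pure dimension `d` it is the intersection pairing of
`H^(2d - i)(X, ℚ(d - n))` and `H^i(X, ℚ(n))`.
-/

set_option autoImplicit false

open CategoryTheory AlgebraicGeometry Pool.Agent.Y116.UV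

namespace Pool.Agent.U213.BP

universe v

/-- The sequence `... → U (i + 1) → Z i → X i → U i → ...` is exact for suitable morphisms of pairings:
homology goes in this direction, cohomology in the opposite direction. -/
def LongExact (Z X U : ℤ → Pairing.{v}) : Prop :=
  ∃ (d : ∀ i, Pairing.Hom (U (i + 1)) (Z i)) (a : ∀ i, Pairing.Hom (Z i) (X i))
    (b : ∀ i, Pairing.Hom (X i) (U i)),
    (∀ i, Pairing.Exact (d i) (a i)) ∧ (∀ i, Pairing.Exact (a i) (b i)) ∧
    ∀ i, Pairing.Exact (b (i + 1)) (d i)

/-- The image of the open immersion `j` is the complement of `f = 0` in `Spec A`. -/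
def IsCompl {R A : Type} [CommRing R] [CommRing A] [Algebra R A] {m : ℕ} (f : Fin m → A) {U : Sch R}
    (j : U ⟶ aff R A) : Prop :=
  IsOpenImmersion j.left ∧ Set.range j.left = {x : PrimeSpectrum A | ∃ l, f l ∉ x.asIdeal}

/-- The pairings `H_i^c(X, ℚ(n)) × H^i_c(X, ℚ(n)) → ℚ` of the separated schemes of finite type over the
finite field `k`, and the properties which are used; most of them are properties of the motive with
compact supports `M^c(X)`. -/
structure Duality (k : Type) [Field k] where
  /-- the pairing of degree `i` and weight `n` -/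
  P : ℤ → ℤ → Sch k → Pairing.{v}
  /-- isomorphic schemes have isomorphic pairings -/
  iso : ∀ (i n : ℤ) (X Y : Sch k), FT True X → Nonempty (X ≅ Y) → Pairing.IsSimilar (P i n X) (P i n Y)
  /-- the groups of the empty scheme are zero -/
  empty : ∀ (i n : ℤ) (X : Sch k), IsEmpty X.left → Subsingleton (P i n X).M ∧ Subsingleton (P i n X).N
  /-- the triangle `M^c(Z) → M^c(X) → M^c(U) → M^c(Z)[1]` of a closed subscheme `Z` of `X` with open
  complement `U` -/
  sequence : ∀ (n : ℤ) {Z X U : Sch k} (a : Z ⟶ X) (b : U ⟶ X), FT True X → IsTriple a b →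
    LongExact (fun i => P i n Z) (fun i => P i n X) (fun i => P i n U)
  /-- the groups of the point: `ℚ` in degree and weight `0`, and `0` otherwise (Quillen) -/
  point : (∀ i n : ℤ, (i ≠ 0 ∨ n ≠ 0) → Subsingleton (P i n (aff k k)).M ∧
    Subsingleton (P i n (aff k k)).N) ∧ (P 0 0 (aff k k)).Perfect
  /-- `M^c` of Jouanolou's scheme `∑ f_l w_l = 1` in `m + 1` variables, an affine bundle of rank `m` over
  the complement `U` of `f = 0` in `Spec A`, is `M^c(U)(m)[2m]` -/
  bundle : ∀ (i n : ℤ) (A : Type) [CommRing A] [Algebra k A] [Algebra.FiniteType k A] (m : ℕ)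
    (f : Fin (m + 1) → A) (U : Sch k) (o : U ⟶ aff k A), IsCompl f o →
    Pairing.IsSimilar (P i n U) (P (i + 2 * m) (n + m) (aff k (Jou f)))
  /-- `M^c(X × 𝔾_m)` is the sum of `M^c(X)[1]` and `M^c(X)(1)[2]` -/
  torus : ∀ (i n : ℤ) (A : Type) [CommRing A] [Algebra k A] [Algebra.FiniteType k A],
    Pairing.IsFactor (P i n (aff k A)) (P (i + 1) n (aff k (LaurentPolynomial A)))

namespace Duality

variable {k : Type} [Field k] (D : Duality.{v} k)

/-- The pairings of the scheme `X` in the weight `n` are perfect, for all degrees `i`. -/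
def BPw (n : ℤ) (X : Sch k) : Prop := ∀ i : ℤ, (D.P i n X).Perfect

/-- All pairings of the scheme `X` are perfect. -/
def BP (X : Sch k) : Prop := ∀ n i : ℤ, (D.P i n X).Perfect

/-- All pairings of the trilinear hypersurfaces `T(x, y, z) = 1` over `k` with at most `m` variables in
one of the three blocks of variables are perfect. -/
def BPTri (m : ℕ) : Prop :=
  ∀ (a b c : ℕ) (F : Fin a → Fin b → Fin c → k), (a ≤ m ∨ b ≤ m ∨ c ≤ m) → D.BP (hypS F)

end Duality

/-- `C` is a class of schemes over `k` like the class of the smooth projective schemes: its members are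
separated of finite type, all pairings are perfect for its members of dimension at most one (a known
case), and (de Jong) for every integral affine scheme `Spec A` of finite type and dimension at most `d`
there are a nonempty open subscheme `Spec A[1/w]`, a member `Y` of `C` of dimension at most `d`, and an
open subscheme `V` of `Y` whose complement has dimension less than `d`, such that the pairings of
`Spec A[1/w]` are direct factors of those of `V` (by pull-back and push-forward for a finite flat
morphism from `V` onto `Spec A[1/w]`). -/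
structure IsProjClass {k : Type} [Field k] (D : Duality.{v} k) (C : Sch k → Prop) : Prop where
  ft : ∀ X, C X → FT True X
  curves : ∀ X, C X → topologicalKrullDim X.left ≤ 1 → D.BP X
  alteration : ∀ (d : ℕ) (A : Type) [CommRing A] [IsDomain A] [Algebra k A] [Algebra.FiniteType k A],
    ringKrullDim A ≤ d → ∃ (w : A) (Z Y V : Sch k) (i : Z ⟶ Y) (o : V ⟶ Y), w ≠ 0 ∧ IsTriple i o ∧
      C Y ∧ topologicalKrullDim Y.left ≤ d ∧ topologicalKrullDim Z.left < d ∧
      ∀ a n : ℤ, Pairing.IsFactor (D.P a n (aff k (Localization.Away w))) (D.P a n V)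

/-- The scheme `X` over `K` as a scheme over the prime field. -/
noncomputable def toPrime (p : ℕ) [Fact p.Prime] {K : Type} [Field K] [Algebra (ZMod p) K]
    (X : Sch K) : Sch (ZMod p) :=
  (Over.map (Spec.map (CommRingCat.ofHom (algebraMap (ZMod p) K)))).obj X

/-- The pairings over all finite fields of characteristic `p`; the groups of a scheme over the finite
field `K` are the same over the prime field, and the pairing is multiplied by the degree of `K`. -/
structure System (p : ℕ) [Fact p.Prime] where
  /-- the theory over the finite field `K` -/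
  D : ∀ (K : Type) [Field K] [Finite K] [Algebra (ZMod p) K], Duality.{v} K
  restriction : ∀ (K : Type) [Field K] [Finite K] [Algebra (ZMod p) K] (i n : ℤ) (X : Sch K),
    FT True X → Pairing.IsSimilar ((D K).P i n X) ((D (ZMod p)).P i n (toPrime p X))

end Pool.Agent.U213.BP
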