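import Mathlib

/-!
# Pairings of motivic homology and cohomology with compact supports: the formal part
-/

set_option autoImplicit false

open Module

namespace Pool.Agent.U213.BP

universe v

/-- A pairing `M × N → ℚ` of rational vector spaces. -/
structure Pairing where
  /-- motivic homology with compact supports -/
  M : Type v
  /-- motivic cohomology with compact supports -/
  N : Type v
  [grpM : AddCommGroup M]
  [modM : Module ℚ M]
  [grpN : AddCommGroup N]
  [modN : Module ℚ N]
  /-- the pairing -/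
  β : M →ₗ[ℚ] N →ₗ[ℚ] ℚ

attribute [instance] Pairing.grpM Pairing.modM Pairing.grpN Pairing.modN

namespace Pairing

/-- The pairing is perfect: both maps `M → Hom(N, ℚ)` and `N → Hom(M, ℚ)` are isomorphisms. -/
def Perfect (A : Pairing.{v}) : Prop :=
  Function.Bijective (fun x : A.M => A.β x) ∧ Function.Bijective (fun y : A.N => A.β.flip y)

/-- A morphism of pairings: a map on homology and a map on cohomology in the opposite direction which are
adjoint to each other. -/
structure Hom (A B : Pairing.{v}) where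
  /-- the map on homology -/
  a : A.M →ₗ[ℚ] B.M
  /-- the map on cohomology -/
  b : B.N →ₗ[ℚ] A.N
  adj : ∀ x y, B.β (a x) y = A.β x (b y)

/-- `A → B → C` is exact on homology and on cohomology. -/
def Exact {A B C : Pairing.{v}} (f : Hom A B) (g : Hom B C) : Prop :=
  Function.Exact f.a g.a ∧ Function.Exact g.b f.b

/-- `A` is a direct factor of `B`. -/
def IsFactor (A B : Pairing.{v}) : Prop :=
  ∃ (s : Hom A B) (r : Hom B A), (∀ x, r.a (s.a x) = x) ∧ ∀ y, s.b (r.b y) = y

/-- `A` and `B` are isomorphic, up to a nonzero factor of the pairings. -/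
def IsSimilar (A B : Pairing.{v}) : Prop :=
  ∃ (θ : A.M ≃ₗ[ℚ] B.M) (η : A.N ≃ₗ[ℚ] B.N) (c : ℚ), c ≠ 0 ∧ ∀ x y, B.β (θ x) (η y) = c * A.β x y

/-- exchange of the two sides -/
@[reducible] def op (A : Pairing.{v}) : Pairing.{v} where
  M := A.N
  N := A.M
  β := A.β.flip

/-- the opposite of a morphism -/
def Hom.op {A B : Pairing.{v}} (f : Hom A B) : Hom B.op A.op where
  a := f.b
  b := f.a
  adj x y := (f.adj y x).symm

lemma Exact.op {A B C : Pairing.{v}} {f : Hom A B} {g : Hom B C} (h : Exact f g) :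
    Exact g.op f.op := ⟨h.2, h.1⟩

/-- The dual of an exact sequence is exact. -/
lemma dual_exact {A B C : Type v} [AddCommGroup A] [AddCommGroup B] [AddCommGroup C] [Module ℚ A]
    [Module ℚ B] [Module ℚ C] {f : A →ₗ[ℚ] B} {g : B →ₗ[ℚ] C} (h : Function.Exact f g) :
    Function.Exact g.dualMap f.dualMap := by
  rw [LinearMap.exact_iff, LinearMap.ker_dualMap_eq_dualAnnihilator_range,
    LinearMap.range_dualMap_eq_dualAnnihilator_ker, (LinearMap.exact_iff.1 h)]

lemma left_five {A B C D E : Pairing.{v}} (f : Hom A B) (g : Hom B C) (h : Hom C D) (e : Hom D E)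
    (h1 : Exact f g) (h2 : Exact g h) (h3 : Exact h e) (hA : Function.Surjective A.β)
    (hB : Function.Bijective B.β) (hD : Function.Bijective D.β) (hE : Function.Injective E.β) :
    Function.Bijective C.β := by
  have c1 : f.b.dualMap ∘ₗ A.β = B.β ∘ₗ f.a := by
    ext x y
    exact (f.adj x y).symm
  have c2 : g.b.dualMap ∘ₗ B.β = C.β ∘ₗ g.a := by
    ext x y
    exact (g.adj x y).symm
  have c3 : h.b.dualMap ∘ₗ C.β = D.β ∘ₗ h.a := by
    ext x y
    exact (h.adj x y).symm
  have c4 : e.b.dualMap ∘ₗ D.β = E.β ∘ₗ e.a := by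
    ext x y
    exact (e.adj x y).symm
  exact LinearMap.bijective_of_surjective_of_bijective_of_bijective_of_injective f.a g.a h.a e.a
    f.b.dualMap g.b.dualMap h.b.dualMap e.b.dualMap A.β B.β C.β D.β E.β c1 c2 c3 c4 h1.1 h2.1 h3.1
    (dual_exact h1.2) (dual_exact h2.2) (dual_exact h3.2) hA hB hD hE

/-- **The five lemma** for perfect pairings. -/
theorem five {A B C D E : Pairing.{v}} (f : Hom A B) (g : Hom B C) (h : Hom C D) (e : Hom D E)
    (h1 : Exact f g) (h2 : Exact g h) (h3 : Exact h e) (hA : A.Perfect) (hB : B.Perfect)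
    (hD : D.Perfect) (hE : E.Perfect) : C.Perfect :=
  ⟨left_five f g h e h1 h2 h3 hA.1.2 hB.1 hD.1 hE.1.1,
    left_five (A := E.op) (B := D.op) (C := C.op) (D := B.op) (E := A.op) e.op h.op g.op f.op h3.op
      h2.op h1.op hE.2.2 hD.2 hB.2 hA.2.1⟩

lemma left_factor {A B : Pairing.{v}} (s : Hom A B) (r : Hom B A) (h1 : ∀ x, r.a (s.a x) = x)
    (h2 : ∀ y, s.b (r.b y) = y) (hB : Function.Bijective B.β) : Function.Bijective A.β := by
  constructor
  · rw [injective_iff_map_eq_zero]
    intro x hx
    have h3 : B.β (s.a x) = 0 := by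
      ext y
      rw [s.adj, hx]
      rfl
    have h4 : s.a x = 0 := hB.1 (by rw [h3, map_zero])
    rw [← h1 x, h4, map_zero]
  · intro φ
    obtain ⟨m, hm⟩ := hB.2 (φ ∘ₗ s.b)
    refine ⟨r.a m, ?_⟩
    ext y
    rw [r.adj, hm, LinearMap.comp_apply, h2]

/-- Direct factors. -/
theorem factor {A B : Pairing.{v}} (h : IsFactor A B) (hB : B.Perfect) : A.Perfect := by
  obtain ⟨s, r, h1, h2⟩ := h
  exact ⟨left_factor s r h1 h2 hB.1, left_factor (A := A.op) (B := B.op) r.op s.op h2 h1 hB.2⟩

/-- Isomorphisms up to a factor. -/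
theorem similar {A B : Pairing.{v}} (h : IsSimilar A B) : A.Perfect ↔ B.Perfect := by
  obtain ⟨θ, η, c, hc, h⟩ := h
  have f1 : IsFactor A B :=
    ⟨{ a := θ
       b := (c • η.symm.toLinearMap)
       adj := fun x y => by
        obtain ⟨y, rfl⟩ := η.surjective y
        simp [h] },
      { a := θ.symm
        b := (c⁻¹ • η.toLinearMap)
        adj := fun x y => by
          obtain ⟨x, rfl⟩ := θ.surjective x
          simp [h, hc] }, fun x => by simp, fun y => by simp [hc, smul_smul]⟩
  have f2 : IsFactor B A :=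
    ⟨{ a := θ.symm
       b := (c⁻¹ • η.toLinearMap)
       adj := fun x y => by
          obtain ⟨x, rfl⟩ := θ.surjective x
          simp [h, hc] },
      { a := θ
        b := (c • η.symm.toLinearMap)
        adj := fun x y => by
          obtain ⟨y, rfl⟩ := η.surjective y
          simp [h] }, fun x => by simp, fun y => by simp [hc, smul_smul]⟩
  exact ⟨factor f2, factor f1⟩

/-- The zero pairing. -/
theorem perfect_of_subsingleton {A : Pairing.{v}} (hM : Subsingleton A.M) (hN : Subsingleton A.N) :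
    A.Perfect :=
  ⟨⟨fun _ _ _ => Subsingleton.elim _ _, fun φ => ⟨0, by ext y; rw [Subsingleton.elim y 0]; simp⟩⟩,
    ⟨fun _ _ _ => Subsingleton.elim _ _, fun φ => ⟨0, by ext y; rw [Subsingleton.elim y 0]; simp⟩⟩⟩

end Pairing

end Pool.Agent.U213.BP
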