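import Pool.Agent.U213.BP.Defs
import Pool.Agent.U213.BP.Alt
import Pool.Agent.U213.TB.Few
import Pool.Agent.Z125.UN.Sym

/-!
# Perfect pairings for all schemes, for three-term systems and for trilinear hypersurfaces
-/

set_option autoImplicit false

open CategoryTheory AlgebraicGeometry MvPolynomial Pool.Agent.Y116.UV Pool.Agent.Z125.UN
  Pool.Agent.Q282.UZ
open Pool.Agent.U213.TB (Sparse sparse_iff)

namespace Pool.Agent.U213.BP

universe v

section

variable {k : Type} [Field k] (D : Duality.{v} k)

lemma bp_empty {X : Sch k} (h : IsEmpty X.left) : D.BP X := fun n i =>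
  Pairing.perfect_of_subsingleton (D.empty i n X h).1 (D.empty i n X h).2

lemma bp_point : D.BP (aff k k) := by
  intro n i
  by_cases h : i ≠ 0 ∨ n ≠ 0
  · exact Pairing.perfect_of_subsingleton (D.point.1 i n h).1 (D.point.1 i n h).2
  · push Not at h
    obtain ⟨rfl, rfl⟩ := h
    exact D.point.2

/-- closure properties in a fixed weight -/
theorem dev_w (n : ℤ) : Dev True (D.BPw n) where
  iso {X Y} h e hX i := (Pairing.similar (D.iso i n X Y h e)).1 (hX i)
  total {Z X U} i o h ht hZ hU j := by
    obtain ⟨d, a, b, h1, h2, h3⟩ := D.sequence n i o h ht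
    obtain ⟨m, rfl⟩ : ∃ m, j = m + 1 := ⟨j - 1, by ring⟩
    exact Pairing.five (d (m + 1)) (a (m + 1)) (b (m + 1)) (d m) (h1 (m + 1)) (h2 (m + 1)) (h3 m)
      (hU _) (hZ _) (hU _) (hZ _)
  opened {Z X U} i o h ht hZ hX j := by
    obtain ⟨d, a, b, h1, h2, h3⟩ := D.sequence n i o h ht
    obtain ⟨m, rfl⟩ : ∃ m, j = m + 1 := ⟨j - 1, by ring⟩
    exact Pairing.five (a (m + 1)) (b (m + 1)) (d m) (a m) (h2 (m + 1)) (h3 m) (h1 m)
      (hZ _) (hX _) (hZ _) (hX _)
  empty X h i := bp_empty D h n i

lemma closed_w (n : ℤ) {Z X U : Sch k} (i : Z ⟶ X) (o : U ⟶ X) (h : FT True X) (ht : IsTriple i o)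
    (hX : D.BPw n X) (hU : D.BPw n U) : D.BPw n Z := fun j => by
  obtain ⟨d, a, b, h1, h2, h3⟩ := D.sequence n i o h ht
  exact Pairing.five (b (j + 1)) (d j) (a j) (b j) (h3 j) (h1 j) (h2 j) (hX _) (hU _) (hX _) (hU _)

theorem clo_w (n : ℤ) : Pool.Agent.Q282.UK.Clo True (D.BPw n) where
  iso := (dev_w D n).iso
  total := (dev_w D n).total
  opened := (dev_w D n).opened
  torus A _ _ _ h i := Pairing.factor (D.torus i n A) (h _)

theorem dev : Dev True D.BP where
  iso h e hX n := (dev_w D n).iso h e (hX n)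
  total i o h ht hZ hU n := (dev_w D n).total i o h ht (hZ n) (hU n)
  opened i o h ht hZ hX n := (dev_w D n).opened i o h ht (hZ n) (hX n)
  empty _ h := bp_empty D h

/-- closure properties for all weights -/
theorem bnd : Bnd True D.BP where
  iso h e hX n := (dev_w D n).iso h e (hX n)
  total i o h ht hZ hU n := (dev_w D n).total i o h ht (hZ n) (hU n)
  opened i o h ht hZ hX n := (dev_w D n).opened i o h ht (hZ n) (hX n)
  closed i o h ht hX hU n := closed_w D n i o h ht (hX n) (hU n)
  space m n j := by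
    obtain ⟨i, rfl⟩ : ∃ i, j = i + 2 * m := ⟨j - 2 * m, by ring⟩
    obtain ⟨n, rfl⟩ : ∃ n', n = n' + m := ⟨n - m, by ring⟩
    have h1 := D.bundle i n k m (f1 k m) (aff k k) (𝟙 _) ⟨inferInstance, range_id m⟩
    have h2 := (Pairing.similar h1).1 (bp_point D n i)
    exact (Pairing.similar (D.iso _ _ _ _ (ft_aff True) ⟨(affIso (jouOne k m)).symm⟩)).1 h2
  jouanolou A _ _ _ m f U o hj hr h n j := by
    cases m with
    | zero =>
      refine bp_empty D ⟨fun x => ?_⟩ n j
      have h1 : o.left x ∈ Set.range o.left := ⟨x, rfl⟩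
      rw [hr] at h1
      obtain ⟨l, -⟩ := h1
      exact l.elim0
    | succ m => exact (Pairing.similar (D.bundle j n A m f U o ⟨hj, hr⟩)).2 (h _ _)
  torus A _ _ _ h n j := Pairing.factor (D.torus j n A) (h _ _)
  bundle A _ _ _ m f U o hj hr h n j := by
    cases m with
    | zero =>
      have h0 : Subsingleton (Jou f) := by
        refine Ideal.Quotient.subsingleton_iff.mpr ?_
        rw [Ideal.eq_top_iff_one, Ideal.mem_span_singleton]
        exact ⟨-1, by simp⟩
      exact bp_empty D (X := aff k (Jou f)) (inferInstance : IsEmpty (PrimeSpectrum (Jou f))) n j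
    | succ m =>
      obtain ⟨i, rfl⟩ : ∃ i, j = i + 2 * m := ⟨j - 2 * m, by ring⟩
      obtain ⟨n, rfl⟩ : ∃ n', n = n' + m := ⟨n - m, by ring⟩
      exact (Pairing.similar (D.bundle i n A m f U o ⟨hj, hr⟩)).1 (h _ _)

lemma alt_w {C : Sch k → Prop} (hC : IsProjClass D C) (n : ℤ) : Alt (D.BPw n) C where
  ft := hC.ft
  alteration d A _ _ _ _ hA := by
    obtain ⟨w, Z, Y, V, i, o, hw, ht, hY, h1, h2, h3⟩ := hC.alteration d A hA
    exact ⟨w, Z, Y, V, i, o, hw, ht, hY, h1, h2, fun hV a => Pairing.factor (h3 a n) (hV a)⟩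

lemma alt {C : Sch k → Prop} (hC : IsProjClass D C) : Alt D.BP C where
  ft := hC.ft
  alteration d A _ _ _ _ hA := by
    obtain ⟨w, Z, Y, V, i, o, hw, ht, hY, h1, h2, h3⟩ := hC.alteration d A hA
    exact ⟨w, Z, Y, V, i, o, hw, ht, hY, h1, h2, fun hV n a => Pairing.factor (h3 a n) (hV n a)⟩

end

section field

variable {k : Type} [Field k] [PerfectField k] (D : Duality.{v} k)

/-- schemes of dimension at most `d` and trilinear forms with a block of at most `d + 2` variables -/
theorem dim_iff (d : ℕ) : (∀ X : Sch k, FT True X → topologicalKrullDim X.left ≤ d → D.BP X) ↔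
    D.BPTri (d + 2) := by
  have hB := bnd D
  refine ⟨fun h a b c F hm => ?_, fun h X hX hn => ?_⟩
  · have h2 : ∀ I : Ideal (MvPolynomial (Fin (d + 1)) k),
        D.BP (aff k (MvPolynomial (Fin (d + 1)) k ⧸ I)) :=
      dim_to_closed hB fun A _ _ _ hA => h _ (ft_aff True) (by rw [topDim_aff]; exact hA)
    exact of_block hB (fun a b c' hc' F => to_tri hB h2 a b c' hc' F) F hm
  · exact (dim_tri hB d).mpr (fun a b F => h a b (d + 2) F (Or.inr (Or.inr le_rfl))) X hX hn

end field

lemma ft_toPrime (p : ℕ) [Fact p.Prime] {K : Type} [Field K] [Finite K] [Algebra (ZMod p) K]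
    {X : Sch K} (h : FT True X) : FT True (toPrime p X) := by
  have hfin : Module.Finite (ZMod p) K := Module.finite_iff_finite.2 inferInstance
  have hft : Algebra.FiniteType (ZMod p) K := inferInstance
  have h0 : (toPrime p X).hom =
      X.hom ≫ Spec.map (CommRingCat.ofHom (algebraMap (ZMod p) K)) := rfl
  have h1 := h.locallyOfFiniteType
  have h2 := h.quasiCompact
  have h3 := h.separated trivial
  have h4 : LocallyOfFiniteType (Spec.map (CommRingCat.ofHom (algebraMap (ZMod p) K))) := by
    rw [HasRingHomProperty.Spec_iff (P := @LocallyOfFiniteType)]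
    exact (RingHom.finiteType_algebraMap).mpr hft
  refine ⟨?_, ?_, fun _ => ?_⟩
  · rw [h0]
    exact MorphismProperty.comp_mem _ X.hom _ h1 h4
  · rw [h0]
    exact MorphismProperty.comp_mem _ X.hom _ h2
      (inferInstance : QuasiCompact (Spec.map (CommRingCat.ofHom (algebraMap (ZMod p) K))))
  · rw [h0]
    exact MorphismProperty.comp_mem _ X.hom _ h3
      (inferInstance : IsSeparated (Spec.map (CommRingCat.ofHom (algebraMap (ZMod p) K))))

section system

variable {p : ℕ} [Fact p.Prime] (S : System.{v} p)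

/-- Perfect pairings in the weight `n` for all separated schemes of finite type over all finite fields of
characteristic `p`. -/
def System.All (n : ℤ) : Prop :=
  ∀ (K : Type) [Field K] [Finite K] [Algebra (ZMod p) K] (X : Sch K), FT True X → (S.D K).BPw n X

/-- Perfect pairings in the weight `n` for all systems of bilinear equations over the prime field with at
most three terms `x_i y_j` in every equation. -/
def System.Sys (n : ℤ) : Prop :=
  ∀ (a b c : ℕ) (E : Fin c → Finset (Fin a × Fin b)), (∀ l, (E l).card ≤ 3) →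
    (S.D (ZMod p)).BPw n (sysS (ZMod p) E)

/-- All pairings are perfect for the smooth affine hypersurfaces `∑_{(i, j, k) ∈ E} x_i y_j z_k = 1` over
the prime field, for all finite sets `E` of triples such that every variable `x_i` occurs in at most three
monomials. -/
def System.Hyps : Prop :=
  ∀ (a b c : ℕ) (E : Finset (Fin a × Fin b × Fin c)), Sparse E →
    (S.D (ZMod p)).BP (tripS (ZMod p) E)

theorem all_iff (n : ℤ) : S.All n ↔ S.Sys n := by
  have hR : ShortPresents (ZMod p) := short_presents ZMod.intCast_surjective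
  have hC := three_iff hR (clo_w (S.D (ZMod p)) n)
  constructor
  · intro h a b c E _
    exact h (ZMod p) _ (ft_aff True)
  · intro h K _ _ _ X hX i
    exact (Pairing.similar (S.restriction K i n X hX)).2
      (hC.2 h (toPrime p X) (ft_toPrime p hX) i)

theorem hyps_iff : (∀ n, S.All n) ↔ S.Hyps := by
  have hR : ShortPresents (ZMod p) := short_presents ZMod.intCast_surjective
  have hC := sparse_iff hR (bnd (S.D (ZMod p)))
  constructor
  · intro h a b c E _ n
    exact h n (ZMod p) _ (ft_aff True)
  · intro h n K _ _ _ X hX i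
    exact (Pairing.similar (S.restriction K i n X hX)).2
      (hC.2 h (toPrime p X) (ft_toPrime p hX) n i)

end system

end Pool.Agent.U213.BP
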